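import Pool.Agent.W820.KH.Asm1

/-!
# Kepler-Heisenberg: complete integrability of class `C^∞` on `{H ≠ 0}` (question Q2)

The phase space is `T^*ℝ³ = (Fin 3 → ℝ) × (Fin 3 → ℝ)`, a point is `v = (q, p)` with
`v.1 = q = (x, y, z)` and `v.2 = p = (p_x, p_y, p_z)`.
-/

open Set Filter Topology
open scoped ContDiff

namespace Pool.Agent.Results.MP_dd7031_mp.SmoothIntegrable

/-- `T^*ℝ³`: positions `v.1 = (x,y,z)` and momenta `v.2 = (p_x,p_y,p_z)` -/
abbrev Phase : Type := (Fin 3 → ℝ) × (Fin 3 → ℝ)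

/-- The Kepler-Heisenberg Hamiltonian. -/
noncomputable def Ham (v : Phase) : ℝ :=
  1 / 2 * ((v.2 0 - 1 / 2 * v.1 1 * v.2 2) ^ 2 + (v.2 1 + 1 / 2 * v.1 0 * v.2 2) ^ 2)
  - 1 / (8 * Real.pi * √((v.1 0 ^ 2 + v.1 1 ^ 2) ^ 2 + 16 * v.1 2 ^ 2))

/-- The angular momentum `p_θ = x p_y - y p_x`. -/
def pTheta (v : Phase) : ℝ := v.1 0 * v.2 1 - v.1 1 * v.2 0

/-- The canonical Poisson bracket
`{F,G} = ∑ᵢ (∂F/∂qᵢ ∂G/∂pᵢ - ∂F/∂pᵢ ∂G/∂qᵢ)`. -/
noncomputable def pb (F G : Phase → ℝ) (v : Phase) : ℝ :=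
  ∑ i : Fin 3, (fderiv ℝ F v (Pi.single i 1, 0) * fderiv ℝ G v (0, Pi.single i 1)
    - fderiv ℝ F v (0, Pi.single i 1) * fderiv ℝ G v (Pi.single i 1, 0))

/-- The region `{H ≠ 0}` of the phase space `T^*(ℝ³ \ {0})`. -/
def NonZeroEnergy : Set Phase := {v | v.1 ≠ 0 ∧ Ham v ≠ 0}

/-- `F₀, F₁, F₂` realise the complete (Liouville) integrability of class `C^∞` on `W` of the
Hamiltonian system of `h`: they are `C^∞` on `W`, they Poisson-commute with `h` (that is, they are
first integrals) and with each other, and their differentials are linearly independent on an open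
dense subset `O` of `W`. -/
structure IsCompleteSystem (h : Phase → ℝ) (W : Set Phase) (F : Fin 3 → Phase → ℝ) : Prop where
  smooth : ∀ i, ContDiffOn ℝ ∞ (F i) W
  integral : ∀ i, ∀ v ∈ W, pb (F i) h v = 0
  commute : ∀ i j, ∀ v ∈ W, pb (F i) (F j) v = 0
  independent : ∃ O ⊆ W, IsOpen O ∧ W ⊆ closure O ∧
    ∀ v ∈ O, LinearIndependent ℝ (fun i => fderiv ℝ (F i) v)

open Pool.Agent.W820.KH

lemma Ham_eq : Ham = H := by
  funext v
  have h : (1 : ℝ) / (8 * Real.pi * √((v.1 0 ^ 2 + v.1 1 ^ 2) ^ 2 + 16 * v.1 2 ^ 2)) = k / s v := by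
    rw [k, div_div]; rfl
  rw [Ham, H, h, PX, PY]
  ring

lemma pTheta_eq : pTheta = L := rfl

lemma W_eq : NonZeroEnergy = W := by
  unfold NonZeroEnergy; rw [Ham_eq]; rfl

/-! ### partial derivatives -/

lemma fderiv_of_curve {F : E → ℝ} {v w : E} {a : ℝ} (hF : DifferentiableAt ℝ F v)
    (h : HasDerivAt (fun t : ℝ => F (v + t • w)) a 0) : fderiv ℝ F v w = a := by
  have h1 : HasDerivAt (fun t : ℝ => v + t • w) w 0 := by
    have := ((hasDerivAt_id (0 : ℝ)).smul_const w).const_add v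
    simpa using this
  have h2 : HasFDerivAt F (fderiv ℝ F v) (v + (0 : ℝ) • w) := by
    simpa using hF.hasFDerivAt
  exact (h2.comp_hasDerivAt (0 : ℝ) h1).unique h

lemma line (v w : E) : HasDerivAt (fun t : ℝ => v + t • w) w 0 := by
  have := ((hasDerivAt_id (0 : ℝ)).smul_const w).const_add v
  simpa using this

lemma fderiv_H {v : E} (hv : v ∈ P) (w : E) : fderiv ℝ H v w = dHf v w := by
  apply fderiv_of_curve
  · exact (contDiffOn_H.contDiffAt (isOpen_P.mem_nhds hv)).differentiableAt (by simp)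
  · have := hda_H (line v w) (by simpa using hv)
    simpa using this

lemma fderiv_L (v w : E) : fderiv ℝ L v w =
    w.1 0 * v.2 1 + v.1 0 * w.2 1 - (w.1 1 * v.2 0 + v.1 1 * w.2 0) := by
  apply fderiv_of_curve
  · exact contDiff_L.contDiffAt.differentiableAt (by simp)
  · have := hda_L (line v w)
    simpa using this

/-- generator of the rotations = Hamiltonian vector field of `L` -/
def XL (v : E) : E := (![-v.1 1, v.1 0, 0], ![-v.2 1, v.2 0, 0])

lemma fderiv_expand (F : E → ℝ) (v a : E) : fderiv ℝ F v a =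
    ∑ i : Fin 3, (a.1 i * fderiv ℝ F v (Pi.single i 1, 0) +
      a.2 i * fderiv ℝ F v (0, Pi.single i 1)) := by
  have ha : a = ∑ i : Fin 3, (a.1 i • ((Pi.single i 1, 0) : E) +
      a.2 i • ((0, Pi.single i 1) : E)) := by
    rw [Fin.sum_univ_three]
    ext j
    · fin_cases j <;> simp
    · fin_cases j <;> simp
  conv_lhs => rw [ha]
  rw [map_sum]
  refine Finset.sum_congr rfl fun i _ => ?_
  rw [map_add, map_smul, map_smul, smul_eq_mul, smul_eq_mul]

lemma pb_H (F : E → ℝ) {v : E} (hv : v ∈ P) : pb F H v = fderiv ℝ F v (XH v) := by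
  rw [fderiv_expand F v (XH v), pb, Fin.sum_univ_three, Fin.sum_univ_three]
  simp only [fderiv_H hv]
  have hs := (s_pos hv).ne'
  have e0 : dHf v (0, Pi.single 0 1) = (XH v).1 0 := by
    simp [dHf, XH]
  have e1 : dHf v (0, Pi.single 1 1) = (XH v).1 1 := by
    simp [dHf, XH]
  have e2 : dHf v (0, Pi.single 2 1) = (XH v).1 2 := by
    simp [dHf, XH]; ring
  have e3 : dHf v (Pi.single 0 1, 0) = -(XH v).2 0 := by
    simp [dHf, XH]; field_simp; ring
  have e4 : dHf v (Pi.single 1 1, 0) = -(XH v).2 1 := by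
    simp [dHf, XH]; field_simp; ring
  have e5 : dHf v (Pi.single 2 1, 0) = -(XH v).2 2 := by
    simp [dHf, XH]; field_simp; ring
  rw [e0, e1, e2, e3, e4, e5]
  ring

lemma pb_L (F : E → ℝ) (v : E) : pb F L v = fderiv ℝ F v (XL v) := by
  rw [fderiv_expand F v (XL v), pb, Fin.sum_univ_three, Fin.sum_univ_three]
  simp only [fderiv_L]
  simp [XL]
  ring

lemma pb_self (F : E → ℝ) (v : E) : pb F F v = 0 := by
  unfold pb
  exact Finset.sum_eq_zero fun i _ => by ring

lemma pb_antisymm (F G : E → ℝ) (v : E) : pb F G v = -pb G F v := by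
  unfold pb
  rw [← Finset.sum_neg_distrib]
  exact Finset.sum_congr rfl fun i _ => by ring

/-- derivative of the rotation curve -/
lemma rot_curve (v : E) : HasDerivAt (fun t : ℝ => rot (Real.cos t) (Real.sin t) v) (XL v) 0 := by
  have hc : HasDerivAt Real.cos 0 0 := by simpa using Real.hasDerivAt_cos 0
  have hs : HasDerivAt Real.sin 1 0 := by simpa using Real.hasDerivAt_sin 0
  unfold rot XL
  apply HasDerivAt.prodMk
  · rw [hasDerivAt_pi]
    intro i
    fin_cases i
    · show HasDerivAt (fun t : ℝ => Real.cos t * v.1 0 - Real.sin t * v.1 1) (-v.1 1) 0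
      exact ((hc.mul_const (v.1 0)).sub (hs.mul_const (v.1 1))).congr_deriv (by simp)
    · show HasDerivAt (fun t : ℝ => Real.sin t * v.1 0 + Real.cos t * v.1 1) (v.1 0) 0
      exact ((hs.mul_const (v.1 0)).add (hc.mul_const (v.1 1))).congr_deriv (by simp)
    · simpa using hasDerivAt_const (0 : ℝ) (v.1 2)
  · rw [hasDerivAt_pi]
    intro i
    fin_cases i
    · show HasDerivAt (fun t : ℝ => Real.cos t * v.2 0 - Real.sin t * v.2 1) (-v.2 1) 0
      exact ((hc.mul_const (v.2 0)).sub (hs.mul_const (v.2 1))).congr_deriv (by simp)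
    · show HasDerivAt (fun t : ℝ => Real.sin t * v.2 0 + Real.cos t * v.2 1) (v.2 0) 0
      exact ((hs.mul_const (v.2 0)).add (hc.mul_const (v.2 1))).congr_deriv (by simp)
    · simpa using hasDerivAt_const (0 : ℝ) (v.2 2)

lemma rot_zero (v : E) : rot (Real.cos 0) (Real.sin 0) v = v := by
  ext i
  · fin_cases i <;> simp [rot]
  · fin_cases i <;> simp [rot]

lemma fderiv_XL_of_inv {F : E → ℝ} {v : E} (hF : DifferentiableAt ℝ F v)
    (h : ∀ c d : ℝ, c ^ 2 + d ^ 2 = 1 → F (rot c d v) = F v) : fderiv ℝ F v (XL v) = 0 := by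
  have h2 : HasFDerivAt F (fderiv ℝ F v) (rot (Real.cos 0) (Real.sin 0) v) := by
    rw [rot_zero]; exact hF.hasFDerivAt
  have h3 := h2.comp_hasDerivAt (0 : ℝ) (rot_curve v)
  have h4 : (F ∘ fun t : ℝ => rot (Real.cos t) (Real.sin t) v) = fun _ => F v := by
    funext t
    exact h _ _ (Real.cos_sq_add_sin_sq t)
  rw [h4] at h3
  exact h3.unique (hasDerivAt_const _ _)

/-- `dH`, `dL` and a third differential which separates `w` are independent. -/
lemma indep {v w : E} (hv : v ∈ P) (hu : u v ≠ 0) {F : E → ℝ} (h1 : fderiv ℝ H v w = 0)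
    (h2 : fderiv ℝ L v w = 0) (h3 : fderiv ℝ F v w ≠ 0) :
    LinearIndependent ℝ ![fderiv ℝ H v, fderiv ℝ L v, fderiv ℝ F v] := by
  rw [Fintype.linearIndependent_iff]
  intro c hc
  rw [Fin.sum_univ_three] at hc
  simp only [Matrix.cons_val_zero, Matrix.cons_val_one, Matrix.cons_val] at hc
  have hap : ∀ a : E, c 0 * fderiv ℝ H v a + c 1 * fderiv ℝ L v a + c 2 * fderiv ℝ F v a = 0 := by
    intro a
    have := congrArg (fun T : E →L[ℝ] ℝ => T a) hc
    simpa using this
  have hc2 : c 2 = 0 := by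
    have := hap w
    rw [h1, h2] at this
    simpa [h3] using this
  have hap' : ∀ a : E, c 0 * dHf v a + c 1 * fderiv ℝ L v a = 0 := by
    intro a
    have := hap a
    rw [hc2, fderiv_H hv] at this
    linarith
  have hs := (s_pos hv).ne'
  have a0 := hap' (0, Pi.single 0 1)
  have a1 := hap' (0, Pi.single 1 1)
  have a2 := hap' (0, Pi.single 2 1)
  have b0 := hap' (Pi.single 0 1, 0)
  have b1 := hap' (Pi.single 1 1, 0)
  simp [dHf, fderiv_L] at a0 a1 a2 b0 b1
  have hc1 : c 1 = 0 := by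
    have : c 1 * u v = 0 := by
      unfold u
      rcases a2 with h | h
      · rw [h] at a0 a1
        linear_combination (-(v.1 1)) * a0 + (v.1 0) * a1
      · linear_combination (-(v.1 1)) * a0 + (v.1 0) * a1 - 2 * c 0 * h
    rcases mul_eq_zero.1 this with h | h
    · exact h
    · exact absurd h hu
  have hc0 : c 0 = 0 := by
    by_contra h
    rw [hc1] at a0 a1 b0 b1
    simp [h] at a0 a1 b0 b1
    rw [a1] at b0
    rw [a0] at b1
    have hk := k_pos.ne'
    simp [hk, hs, hu] at b0 b1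
    apply hu
    unfold u; rw [b0, b1]; ring
  intro i
  fin_cases i
  · exact hc0
  · exact hc1
  · exact hc2

theorem main : IsOpen NonZeroEnergy ∧ ∃ F : Fin 3 → Phase → ℝ, F 0 = Ham ∧ F 1 = pTheta ∧
    (∀ i, ContDiffOn ℝ ∞ (F i) NonZeroEnergy) ∧
    (∀ i, ∀ v ∈ NonZeroEnergy, pb (F i) Ham v = 0) ∧
    (∀ i j, ∀ v ∈ NonZeroEnergy, pb (F i) (F j) v = 0) ∧
    ∃ O ⊆ NonZeroEnergy, IsOpen O ∧ NonZeroEnergy ⊆ closure O ∧
      ∀ v ∈ O, LinearIndependent ℝ (fun i => fderiv ℝ (F i) v) := by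
  rw [W_eq, Ham_eq, pTheta_eq]
  refine ⟨isOpen_W, ?_⟩
  obtain ⟨φ, g, h, F, y, w, hF1, hF2, hF3, hyV, hw1, hw2, hw3, hcl⟩ := exists_F3
  have hdiff : ∀ v ∈ W, DifferentiableAt ℝ F v := fun v hv =>
    (hF1.contDiffAt (isOpen_W.mem_nhds hv)).differentiableAt (by simp)
  have hFH : ∀ v ∈ W, pb F H v = 0 := by
    intro v hv
    rw [pb_H F hv.1]
    have h1 := h.hasDeriv v hv.1 0
    rw [h.zero] at h1
    have h2 : HasFDerivAt F (fderiv ℝ F v) (φ 0 v) := by
      rw [h.zero]; exact (hdiff v hv).hasFDerivAt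
    have h3 := h2.comp_hasDerivAt (0 : ℝ) h1
    have h4 : (F ∘ fun t : ℝ => φ t v) = fun _ => F v := by
      funext t; exact hF2 v hv t
    rw [h4] at h3
    have h5 := h3.unique (hasDerivAt_const _ _)
    rw [map_smul, smul_eq_mul] at h5
    rcases mul_eq_zero.1 h5 with h6 | h6
    · exact absurd h6 (h.gpos v hv.1).ne'
    · exact h6
  have hFL : ∀ v ∈ W, pb F L v = 0 := by
    intro v hv
    rw [pb_L F v]
    exact fderiv_XL_of_inv (hdiff v hv) fun c d hcd => hF3 c d hcd v hv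
  have hHL : ∀ v ∈ W, pb H L v = 0 := by
    intro v hv
    rw [pb_L H v]
    exact fderiv_XL_of_inv
      ((contDiffOn_H.contDiffAt (isOpen_P.mem_nhds hv.1)).differentiableAt (by simp))
      fun c d hcd => H_rot hcd v
  have hanti : ∀ (A B : E → ℝ) (v : E), pb A B v = 0 → pb B A v = 0 := fun A B v hAB => by
    rw [pb_antisymm, hAB, neg_zero]
  set FF : Fin 3 → E → ℝ := ![H, L, F] with hFF
  have hsm : ∀ i, ContDiffOn ℝ ∞ (FF i) W := by
    intro i
    fin_cases i
    · exact contDiffOn_H.mono fun v hv => hv.1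
    · exact contDiff_L.contDiffOn
    · exact hF1
  refine ⟨FF, rfl, rfl, hsm, ?_, ?_, ?_⟩
  · intro i v hv
    fin_cases i
    · exact pb_self H v
    · exact hanti _ _ v (hHL v hv)
    · exact hFH v hv
  · intro i j v hv
    fin_cases i <;> fin_cases j
    · exact pb_self H v
    · exact hHL v hv
    · exact hanti _ _ v (hFH v hv)
    · exact hanti _ _ v (hHL v hv)
    · exact pb_self L v
    · exact hanti _ _ v (hFL v hv)
    · exact hFH v hv
    · exact hFL v hv
    · exact pb_self F v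
  · set D : E → Fin 3 → (E →L[ℝ] ℝ) := fun v i => fderiv ℝ (FF i) v with hD
    have hDc : ContinuousOn D W := by
      apply continuousOn_pi.2
      intro i
      exact (hsm i).continuousOn_fderiv_of_isOpen isOpen_W (by simp)
    refine ⟨W ∩ D ⁻¹' {f | LinearIndependent ℝ f}, inter_subset_left,
      hDc.isOpen_inter_preimage isOpen_W isOpen_setOfPred_linearIndependent, ?_, fun v hv => hv.2⟩
    refine hcl.trans (closure_mono ?_)
    rintro _ ⟨m, rfl⟩
    have hyW : y m ∈ W := ⟨(hyV m).1.1, (hyV m).1.2.1⟩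
    refine ⟨hyW, ?_⟩
    have hi := indep hyW.1 (u_ne_of_L (hyV m).1.2.2) (hw1 m) (hw2 m) (hw3 m)
    have e : D (y m) = ![fderiv ℝ H (y m), fderiv ℝ L (y m), fderiv ℝ F (y m)] := by
      funext i
      fin_cases i <;> rfl
    show LinearIndependent ℝ (D (y m))
    rw [e]
    exact hi

/-- **Theorem** (Q2, positive answer). The Kepler-Heisenberg system is completely integrable of
class `C^∞` on the open set `{H ≠ 0}`; two of the three integrals are `H` and `p_θ`. -/
theorem result : IsOpen NonZeroEnergy ∧ ∃ F : Fin 3 → Phase → ℝ,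
    IsCompleteSystem Ham NonZeroEnergy F ∧ F 0 = Ham ∧ F 1 = pTheta := by
  obtain ⟨h0, F, h1, h2, h3, h4, h5, h6⟩ := main
  exact ⟨h0, F, ⟨h3, h4, h5, h6⟩, h1, h2⟩

end Pool.Agent.Results.MP_dd7031_mp.SmoothIntegrable
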